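import Pool.Agent.H2.KM.Targets

set_option autoImplicit false

open Matrix Pool.Agent.H2.NL Pool.Agent.H2.KM Pool.Agent.H64.CC

namespace Pool.Agent.H53.KM

theorem pf_PAT (h : T_GCN) : T_PAT := by
  intro K _ I _ _ F s
  induction s with
  | succ s ih =>
    intro m
    obtain ⟨h1, h2, h3, h4⟩ := ih m
    refine ⟨?_, ?_, ?_, ?_⟩
    · simp only [pat, List.count_cons, h1]
      simp
      omega
    · simp only [pat, List.count_cons, h2]
      simp
    · simp only [pat, List.length_cons, h3]
      omega
    · intro x
      have e : s + 1 + m = (s + m) + 1 := by omega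
      rw [e]
      change itc F (s + m) (con F.η 0 (Gp F.o (pat (s + 1) m) x)) = _
      simp only [pat]
      rw [h K I F x true true (pat s m)]
      rw [h4]
      rfl
  | zero =>
    intro m
    induction m with
    | zero =>
      refine ⟨by simp [pat], by simp [pat], by simp [pat], ?_⟩
      intro x
      simp [pat, itc, Gp, val]
    | succ m ih =>
      obtain ⟨h1, h2, h3, h4⟩ := ih
      refine ⟨?_, ?_, ?_, ?_⟩
      · simp only [pat, List.count_cons, h1]
        simp
      · simp only [pat, List.count_cons, h2]
        simp
      · simp only [pat, List.length_cons, h3]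
        omega
      · intro x
        have e : 0 + (m + 1) = (0 + m) + 1 := by omega
        rw [e]
        change itc F (0 + m) (con F.η 0 (Gp F.o (pat 0 (m + 1)) x)) = _
        simp only [pat]
        rw [h K I F x true false (pat 0 m)]
        rw [h4]
        rfl

end Pool.Agent.H53.KM
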