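import Pool.Agent.H2.KM.Targets

set_option autoImplicit false

open Matrix Pool.Agent.H2.NL Pool.Agent.H2.KM Pool.Agent.H64.CC

namespace Pool.Agent.H53.KM

section

variable {K : Type} [Field K] {I : Type} [Fintype I] [DecidableEq I] (F : Form K I)

theorem gsA (h2 : T_BSP) {x : List I → List I → K} (hx : GS F.o x) (j : ℕ) :
    GS F.o ((opA F)^[j] x) := by
  induction j with
  | zero => exact hx
  | succ j ih =>
    rw [Function.iterate_succ_apply']
    exact (h2 K I F _ ih).1

theorem gsB (h2 : T_BSP) {x : List I → List I → K} (hx : GS F.o x) (j : ℕ) :
    GS F.o ((opB F)^[j] x) := by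
  induction j with
  | zero => exact hx
  | succ j ih =>
    rw [Function.iterate_succ_apply']
    exact (h2 K I F _ ih).2.1

theorem cAB (h2 : T_BSP) (h3 : T_CMM) {x : List I → List I → K} (hx : GS F.o x) (j : ℕ) :
    (opA F)^[j] (opB F x) = opB F ((opA F)^[j] x) := by
  induction j with
  | zero => rfl
  | succ j ih =>
    rw [Function.iterate_succ_apply', ih, Function.iterate_succ_apply']
    exact (h3 K I F _ (gsA F h2 hx j)).1

theorem cAC (h2 : T_BSP) (h3 : T_CMM) {x : List I → List I → K} (hx : GS F.o x) (j : ℕ) :
    (opA F)^[j] (opC F x) = opC F ((opA F)^[j] x) := by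
  induction j with
  | zero => rfl
  | succ j ih =>
    rw [Function.iterate_succ_apply', ih, Function.iterate_succ_apply']
    exact (h3 K I F _ (gsA F h2 hx j)).2.1

theorem cBC (h2 : T_BSP) (h3 : T_CMM) {x : List I → List I → K} (hx : GS F.o x) (j : ℕ) :
    (opB F)^[j] (opC F x) = opC F ((opB F)^[j] x) := by
  induction j with
  | zero => rfl
  | succ j ih =>
    rw [Function.iterate_succ_apply', ih, Function.iterate_succ_apply']
    exact (h3 K I F _ (gsB F h2 hx j)).2.2

end

theorem pf_TYP (h1 : T_GCN) (h2 : T_BSP) (h3 : T_CMM) : T_TYP := by
  intro K _ I _ _ F l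
  induction l with
  | zero =>
    intro x hx s hs
    have : s = [] := List.length_eq_zero_iff.1 (by omega)
    subst this
    exact ⟨0, 0, 0, by simp, by simp, by simp [itc, Gp, val]⟩
  | succ l ih =>
    intro x hx s hs
    match s, hs with
    | [], hs => simp at hs
    | [_], hs => simp at hs; omega
    | h :: h' :: s', hs =>
      have hl : s'.length = 2 * l := by
        simp only [List.length_cons] at hs
        omega
      have hpk : GS F.o (pick F h h' x) := by
        cases h <;> cases h'
        · exact (h2 K I F x hx).2.1
        · exact (h2 K I F x hx).2.2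
        · exact (h2 K I F x hx).2.2
        · exact (h2 K I F x hx).1
      obtain ⟨j, i, k, e1, e2, e3⟩ := ih (pick F h h' x) hpk s' hl
      have e4 : itc F (l + 1) (Gp F.o (h :: h' :: s') x) = val F j i k (pick F h h' x) := by
        change itc F l (con F.η 0 (Gp F.o (h :: h' :: s') x)) = _
        rw [h1 K I F x h h' s', e3]
      have eC : val F j i k (opC F x) = val F j i (k + 1) x := by
        unfold val
        rw [cAC F h2 h3 hx, cBC F h2 h3 (gsA F h2 hx j), Function.iterate_succ_apply]
      cases h <;> cases h'
      · refine ⟨j, i + 1, k, ?_, ?_, ?_⟩
        · simp only [List.count_cons]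
          simp
          omega
        · simp only [List.count_cons]
          simp
          omega
        · rw [e4]
          change val F j i k (opB F x) = _
          unfold val
          rw [cAB F h2 h3 hx, Function.iterate_succ_apply]
      · refine ⟨j, i, k + 1, ?_, ?_, ?_⟩
        · simp only [List.count_cons]
          simp
          omega
        · simp only [List.count_cons]
          simp
          omega
        · rw [e4]
          exact eC
      · refine ⟨j, i, k + 1, ?_, ?_, ?_⟩
        · simp only [List.count_cons]
          simp
          omega
        · simp only [List.count_cons]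
          simp
          omega
        · rw [e4]
          exact eC
      · refine ⟨j + 1, i, k, ?_, ?_, ?_⟩
        · simp only [List.count_cons]
          simp
          omega
        · simp only [List.count_cons]
          simp
          omega
        · rw [e4]
          rfl

end Pool.Agent.H53.KM
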